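import Pool.Agent.Lib.MP_359fef_co.U0

/-!
# Task N: the number of `m`-tuples spanning a totally isotropic subspace.
-/

namespace Pool.Agent.MP_359fef_co

open Finset Matrix Module

universe u

variable {K : Type u} [Field K] [Fintype K] {C : Cj K}

namespace N

variable {W : Type u} [AddCommGroup W] [Module K W] (H : Herm C W)

/-- the form as a linear map in the second variable -/
def fl (x : W) : W →ₗ[K] K where
  toFun := H.f x
  map_add' := H.add_right x
  map_smul' := fun a y => by rw [H.smul_right]; rfl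

/-- `y ↦ (⟨w,y⟩, ⟨z,y⟩)` -/
def phi (w z : W) : W →ₗ[K] K × K := (fl H w).prod (fl H z)

theorem mem_ker_phi {w z y : W} : y ∈ LinearMap.ker (phi H w z) ↔ H.f w y = 0 ∧ H.f z y = 0 := by
  rw [LinearMap.mem_ker]
  change (H.f w y, H.f z y) = 0 ↔ _
  rw [Prod.mk_eq_zero]

theorem decomp {w z : W} (hw : H.f w w = 0) (hz : H.f w z = 1) (y : W) :
    y - (H.f z y - H.f w y * H.f z z) • w - (H.f w y) • z ∈ LinearMap.ker (phi H w z) := by
  have hzw : H.f z w = 1 := by rw [H.symm w z, hz, map_one]
  rw [mem_ker_phi]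
  constructor
  · rw [H.sub_right, H.sub_right, H.smul_right, H.smul_right, hw, hz]; ring
  · rw [H.sub_right, H.sub_right, H.smul_right, H.smul_right, hzw]; ring

/-- the restricted form -/
def sub (w z : W) (hw : H.f w w = 0) (hz : H.f w z = 1) : Herm C (LinearMap.ker (phi H w z)) where
  f := fun x y => H.f x.1 y.1
  add_right := fun x y t => H.add_right _ _ _
  smul_right := fun a x y => H.smul_right _ _ _
  symm := fun x y => H.symm _ _
  nondeg := by
    intro x hx
    apply Subtype.ext
    refine H.nondeg _ (fun y => ?_)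
    have h1 := hx ⟨_, decomp H hw hz y⟩
    simp only at h1
    have h2 := (mem_ker_phi H).1 x.2
    have h3 : H.f x.1 w = 0 := by rw [H.symm w x.1, h2.1, map_zero]
    have h4 : H.f x.1 z = 0 := by rw [H.symm z x.1, h2.2, map_zero]
    rw [H.sub_right, H.sub_right, H.smul_right, H.smul_right, h3, h4] at h1
    simpa using h1

theorem finrank_ker [Finite W] {w z : W} (hw : H.f w w = 0) (hz : H.f w z = 1) :
    finrank K (LinearMap.ker (phi H w z)) + 2 = finrank K W := by
  haveI : Module.Finite K W := Module.Finite.of_finite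
  have hzw : H.f z w = 1 := by rw [H.symm w z, hz, map_one]
  have hsurj : Function.Surjective (phi H w z) := by
    rintro ⟨a, b⟩
    refine ⟨(b - a * H.f z z) • w + a • z, ?_⟩
    change (H.f w _, H.f z _) = (a, b)
    rw [H.add_right, H.add_right, H.smul_right, H.smul_right, H.smul_right, H.smul_right, hw, hz,
      hzw]
    refine Prod.ext ?_ ?_
    · simp only; ring
    · simp only; ring
  have := LinearMap.finrank_range_add_finrank_ker (phi H w z)
  rw [LinearMap.range_eq_top.2 hsurj, finrank_top, finrank_prod, finrank_self] at this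
  omega

/-- splitting off an isotropic vector -/
def fibEquiv (m : ℕ) {w z : W} (hw : H.f w w = 0) (hz : H.f w z = 1) :
    {y : Fin m → W // (∀ i j, H.f (y i) (y j) = 0) ∧ ∀ i, H.f w (y i) = 0} ≃
      {y : Fin m → LinearMap.ker (phi H w z) // ∀ i j, (sub H w z hw hz).f (y i) (y j) = 0} ×
        (Fin m → K) where
  toFun := fun y => (⟨fun i => ⟨y.1 i - (H.f z (y.1 i)) • w, by
      have hzw : H.f z w = 1 := by rw [H.symm w z, hz, map_one]
      rw [mem_ker_phi]
      constructor
      · rw [H.sub_right, H.smul_right, hw, y.2.2 i]; ring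
      · rw [H.sub_right, H.smul_right, hzw]; ring⟩, by
      intro i j
      change H.f (y.1 i - (H.f z (y.1 i)) • w) (y.1 j - (H.f z (y.1 j)) • w) = 0
      have h3 : H.f (y.1 i) w = 0 := by rw [H.symm w (y.1 i), y.2.2 i, map_zero]
      rw [H.sub_left, H.sub_right, H.sub_right, H.smul_left, H.smul_left, H.smul_right,
        H.smul_right, h3, hw, y.2.2 j, y.2.1 i j]
      ring⟩, fun i => H.f z (y.1 i))
  invFun := fun p => ⟨fun i => (p.1.1 i).1 + p.2 i • w, by
      constructor
      · intro i j
        have h0 : H.f (p.1.1 i).1 (p.1.1 j).1 = 0 := p.1.2 i j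
        have h1 := ((mem_ker_phi H).1 (p.1.1 i).2).1
        have h2 := ((mem_ker_phi H).1 (p.1.1 j).2).1
        have h3 : H.f (p.1.1 i).1 w = 0 := by rw [H.symm w, h1, map_zero]
        rw [H.add_left, H.add_right, H.add_right, H.smul_left, H.smul_left, H.smul_right,
          H.smul_right, h3, hw, h2, h0]
        ring
      · intro i
        have h1 := ((mem_ker_phi H).1 (p.1.1 i).2).1
        rw [H.add_right, H.smul_right, hw, h1]; ring⟩
  left_inv := by
    intro y
    apply Subtype.ext
    funext i
    simp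
  right_inv := by
    rintro ⟨y, a⟩
    have hzw : H.f z w = 1 := by rw [H.symm w z, hz, map_one]
    have key : ∀ i, H.f z ((y.1 i).1 + a i • w) = a i := by
      intro i
      have h1 := ((mem_ker_phi H).1 (y.1 i).2).2
      rw [H.add_right, H.smul_right, hzw, h1]; ring
    refine Prod.ext ?_ ?_
    · apply Subtype.ext
      funext i
      apply Subtype.ext
      change (y.1 i).1 + a i • w - (H.f z ((y.1 i).1 + a i • w)) • w = (y.1 i).1
      rw [key i, add_sub_cancel_right]
    · funext i
      exact key i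

/-- the first vector -/
def consEq (m : ℕ) :
    {y : Fin (m + 1) → W // ∀ i j, H.f (y i) (y j) = 0} ≃
      Σ w : {w : W // H.f w w = 0},
        {y : Fin m → W // (∀ i j, H.f (y i) (y j) = 0) ∧ ∀ i, H.f w.1 (y i) = 0} where
  toFun := fun y => ⟨⟨y.1 0, y.2 0 0⟩, ⟨fun i => y.1 i.succ,
    fun i j => y.2 _ _, fun i => y.2 _ _⟩⟩
  invFun := fun p => ⟨Fin.cons p.1.1 p.2.1, by
    intro i j
    refine Fin.cases ?_ (fun i' => ?_) i <;> refine Fin.cases ?_ (fun j' => ?_) j
    · exact p.1.2
    · exact p.2.2.2 j'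
    · simp only [Fin.cons_succ, Fin.cons_zero]
      rw [H.symm p.1.1, p.2.2.2 i', map_zero]
    · exact p.2.2.1 i' j'⟩
  left_inv := by
    intro y
    apply Subtype.ext
    funext i
    refine Fin.cases ?_ (fun i' => ?_) i
    · rfl
    · rfl
  right_inv := by
    rintro ⟨w, y⟩
    rfl

theorem card_iso [Finite W] :
    (C.q : ℚ) * (Nat.card {w : W // H.f w w = 0} : ℚ) =
      C.X ^ (2 * finrank K W) + (C.q - 1) * C.X ^ finrank K W := by
  haveI : Module.Finite K W := Module.Finite.of_finite
  have h := Herm.card_iso_perp H ⊥ (by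
    intro x hx y hy
    rw [(Submodule.mem_bot K).1 hx, H.zero_left])
  have hperp : H.perp ⊥ = ⊤ := by
    rw [eq_top_iff]
    intro x _ y hy
    rw [(Submodule.mem_bot K).1 hy, H.zero_left]
  rw [hperp] at h
  have e1 : Nat.card {w : (⊤ : Submodule K W) // H.f w.1 w.1 = 0} = Nat.card {w : W // H.f w w = 0} :=
    Nat.card_congr
      { toFun := fun x => ⟨x.1.1, x.2⟩
        invFun := fun x => ⟨⟨x.1, trivial⟩, x.2⟩
        left_inv := fun x => rfl
        right_inv := fun x => rfl }
  have e2 : (Nat.card (⊤ : Submodule K W) : ℚ) = C.X ^ (2 * finrank K W) := by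
    have : Nat.card (⊤ : Submodule K W) = Fintype.card K ^ finrank K W := by
      haveI := Fintype.ofFinite (⊤ : Submodule K W)
      rw [Nat.card_eq_fintype_card, Module.card_eq_pow_finrank (K := K), finrank_top]
    rw [this, C.card_eq, pow_mul]
    unfold Cj.X
    push_cast
    rw [neg_sq]
  rw [e1, e2] at h
  exact h

end N

open N

/-- Task N: number of `m`-tuples spanning a totally isotropic subspace. -/
theorem card_ti {W : Type u} [AddCommGroup W] [Module K W] [Finite W] (H : Herm C W) (m : ℕ) :
    (Nat.card {y : Fin m → W // ∀ i j, H.f (y i) (y j) = 0} : ℚ) = nn C.X m (finrank K W) := by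
  induction m generalizing W with
  | zero =>
    have : Nat.card {y : Fin 0 → W // ∀ i j, H.f (y i) (y j) = 0} = 1 := by
      rw [Nat.card_eq_one_iff_unique]
      constructor
      · exact ⟨fun a b => Subtype.ext (Subsingleton.elim _ _)⟩
      · exact ⟨⟨fun i => i.elim0, fun i => i.elim0⟩⟩
    rw [this]
    simp [nn]
  | succ m ih =>
    classical
    haveI := Fintype.ofFinite W
    rw [Nat.card_congr (consEq H m), Nat.card_sigma, Nat.cast_sum]
    have h0 : H.f (0 : W) 0 = 0 := H.zero_left _
    rw [← Finset.add_sum_erase univ _ (Finset.mem_univ (⟨0, h0⟩ : {w : W // H.f w w = 0}))]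
    have hfirst : (Nat.card {y : Fin m → W //
        (∀ i j, H.f (y i) (y j) = 0) ∧ ∀ i, H.f (0 : W) (y i) = 0} : ℚ) =
        nn C.X m (finrank K W) := by
      rw [← ih H]
      congr 1
      exact Nat.card_congr (Equiv.subtypeEquivRight (fun y =>
        ⟨fun h => h.1, fun h => ⟨h, fun i => H.zero_left _⟩⟩))
    have hrest : ∀ w ∈ (univ : Finset {w : W // H.f w w = 0}).erase ⟨0, h0⟩,
        (Nat.card {y : Fin m → W //
          (∀ i j, H.f (y i) (y j) = 0) ∧ ∀ i, H.f w.1 (y i) = 0} : ℚ) =
        C.X ^ (2 * m) * nn C.X m (finrank K W - 2) := by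
      intro w hw
      have hw0 : w.1 ≠ 0 := by
        intro h
        exact (Finset.mem_erase.1 hw).1 (Subtype.ext h)
      have : ∃ z, H.f w.1 z = 1 := by
        have : ∃ y, H.f w.1 y ≠ 0 := by
          by_contra hcon
          push Not at hcon
          exact hw0 (H.nondeg w.1 hcon)
        obtain ⟨y, hy⟩ := this
        exact ⟨(H.f w.1 y)⁻¹ • y, by rw [H.smul_right, inv_mul_cancel₀ hy]⟩
      obtain ⟨z, hz⟩ := this
      rw [Nat.card_congr (fibEquiv H m w.2 hz), Nat.card_prod, Nat.cast_mul,
        ih (N.sub H w.1 z w.2 hz)]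
      have h2 := finrank_ker H w.2 hz
      have h3 : finrank K (LinearMap.ker (phi H w.1 z)) = finrank K W - 2 := by omega
      have h4 : (Nat.card (Fin m → K) : ℚ) = C.X ^ (2 * m) := by
        rw [Nat.card_eq_fintype_card, Fintype.card_fun, Fintype.card_fin, C.card_eq, pow_mul]
        unfold Cj.X
        push_cast
        rw [neg_sq]
      rw [h3, h4, mul_comm]
    rw [hfirst, Finset.sum_congr rfl hrest, Finset.sum_const, Finset.card_erase_of_mem
      (Finset.mem_univ _), Finset.card_univ, nsmul_eq_mul]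
    have hpos : 1 ≤ Fintype.card {w : W // H.f w w = 0} :=
      Fintype.card_pos_iff.2 ⟨⟨0, h0⟩⟩
    rw [Nat.cast_sub hpos]
    have hiso := N.card_iso H
    rw [Nat.card_eq_fintype_card] at hiso
    have hq : (C.q : ℚ) = - C.X := by unfold Cj.X; rw [neg_neg]
    have hq0 : C.X ≠ 0 := by
      have := C.two_le_q
      unfold Cj.X
      rw [neg_ne_zero]
      have : (C.q : ℚ) ≠ 0 := by
        exact_mod_cast (by omega : C.q ≠ 0)
      exact this
    have hcount : ((Fintype.card {w : W // H.f w w = 0} : ℕ) : ℚ) - 1 =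
        - ((C.X ^ finrank K W - 1) * (C.X ^ (finrank K W - 1) - 1)) := by
      rw [hq] at hiso
      rcases Nat.eq_zero_or_pos (finrank K W) with h | h
      · rw [h] at hiso ⊢
        have h5 : C.X * ((Fintype.card {w : W // H.f w w = 0} : ℚ) - 1) = 0 := by
          simp only [mul_zero, pow_zero] at hiso
          linarith
        rcases mul_eq_zero.1 h5 with h6 | h6
        · exact absurd h6 hq0
        · rw [h6]; simp
      · obtain ⟨k, hk⟩ := Nat.exists_eq_succ_of_ne_zero (by omega : finrank K W ≠ 0)
        rw [hk] at hiso ⊢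
        have h5 : C.X * ((Fintype.card {w : W // H.f w w = 0} : ℚ) - 1) =
          C.X * (- ((C.X ^ (k + 1) - 1) * (C.X ^ k - 1))) := by
          have e : C.X ^ (2 * (k + 1)) = C.X * C.X ^ k * (C.X * C.X ^ k) := by ring
          rw [Nat.succ_eq_add_one] at hiso
          rw [e] at hiso
          have e2 : C.X ^ (k + 1) = C.X * C.X ^ k := by ring
          rw [e2] at hiso ⊢
          linear_combination -hiso
        exact mul_left_cancel₀ hq0 h5
    push_cast
    rw [hcount]
    simp only [nn]
    ring

end Pool.Agent.MP_359fef_co
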