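import Pool.Agent.Lib.MP_359fef_co.U0

/-!
# Task O: irreducible elements of `GU_n(q)` exist for odd `n` only.
-/

namespace Pool.Agent.MP_359fef_co

open Finset Matrix Module

universe u

variable {K : Type u} [Field K] [Fintype K] {C : Cj K}

namespace O

open Polynomial

variable {n : ℕ}

theorem aeval_comm (c : Matrix (Fin n) (Fin n) K) (p : K[X]) :
    aeval c p * c = c * aeval c p := by
  have h1 : aeval c (p * X) = aeval c p * c := by rw [map_mul, aeval_X]
  have h2 : aeval c (X * p) = c * aeval c p := by rw [map_mul, aeval_X]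
  rw [← h1, ← h2, mul_comm]

theorem aeval_dich (c : Matrix (Fin n) (Fin n) K) (hirr : IsIrred c) (p : K[X]) :
    aeval c p = 0 ∨ ∀ x, (aeval c p) *ᵥ x = 0 → x = 0 := by
  rcases hirr (LinearMap.ker (Matrix.mulVecLin (aeval c p))) (by
    intro x hx
    rw [LinearMap.mem_ker, Matrix.mulVecLin_apply] at hx ⊢
    rw [Matrix.mulVec_mulVec, aeval_comm, ← Matrix.mulVec_mulVec, hx, Matrix.mulVec_zero]) with h | h
  · right
    intro x hx
    have : x ∈ LinearMap.ker (Matrix.mulVecLin (aeval c p)) := by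
      rw [LinearMap.mem_ker, Matrix.mulVecLin_apply, hx]
    rw [h] at this
    exact (Submodule.mem_bot K).1 this
  · left
    have h2 : Matrix.mulVecLin (aeval c p) = 0 := LinearMap.ker_eq_top.1 h
    ext i j
    have := congrFun (congrArg (fun f => f (Pi.single j 1)) h2) i
    simp only [Matrix.mulVecLin_apply, Matrix.mulVec_single_one, LinearMap.zero_apply] at this
    simpa using this

theorem aeval_conj (c : Matrix (Fin n) (Fin n) K) (σ : K →+* K) (p : K[X]) :
    aeval (cᵀ.map σ) (p.map σ) = ((aeval c p)ᵀ.map σ) := by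
  induction p using Polynomial.induction_on' with
  | add p r hp hr =>
    rw [Polynomial.map_add, map_add, map_add, hp, hr, Matrix.transpose_add, Matrix.map_add]
    exact fun a b => map_add σ a b
  | monomial k a =>
    rw [Polynomial.map_monomial, aeval_monomial, aeval_monomial, Matrix.transpose_mul,
      Matrix.transpose_pow, Matrix.map_mul, ← Matrix.map_pow]
    have : (((algebraMap K (Matrix (Fin n) (Fin n) K)) a)ᵀ).map σ =
      (algebraMap K (Matrix (Fin n) (Fin n) K)) (σ a) := by
      rw [Matrix.algebraMap_eq_diagonal, Matrix.algebraMap_eq_diagonal, Matrix.diagonal_transpose,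
        Matrix.diagonal_map (map_zero σ)]
      rfl
    rw [this]
    exact Algebra.commutes _ _

/-- the minimal polynomial of an irreducible matrix is irreducible -/
theorem irreducible_minpoly (hn : 1 ≤ n) (c : Matrix (Fin n) (Fin n) K) (hirr : IsIrred c) :
    Irreducible (minpoly K c) := by
  haveI : Nonempty (Fin n) := ⟨⟨0, hn⟩⟩
  have hint : IsIntegral K c := Algebra.IsIntegral.isIntegral c
  have hf0 : minpoly K c ≠ 0 := minpoly.ne_zero hint
  refine ⟨minpoly.not_isUnit K c, fun a b hab => ?_⟩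
  have ha0 : a ≠ 0 := by rintro rfl; rw [zero_mul] at hab; exact hf0 hab
  have hb0 : b ≠ 0 := by rintro rfl; rw [mul_zero] at hab; exact hf0 hab
  have hz : aeval c a * aeval c b = 0 := by
    rw [← map_mul, ← hab, minpoly.aeval]
  rcases aeval_dich c hirr a with h | h
  · right
    obtain ⟨k, hk⟩ := minpoly.dvd K c h
    have h1 : a * 1 = a * (b * k) := by
      rw [mul_one, ← mul_assoc, ← hab]; exact hk
    have h2 := mul_left_cancel₀ ha0 h1
    exact IsUnit.of_mul_eq_one k h2.symm
  · left
    have hb : aeval c b = 0 := by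
      ext i j
      have h3 : (aeval c a) *ᵥ ((aeval c b) *ᵥ (Pi.single j 1)) = 0 := by
        rw [Matrix.mulVec_mulVec, hz, Matrix.zero_mulVec]
      have := congrFun (h _ h3) i
      simpa using this
    obtain ⟨k, hk⟩ := minpoly.dvd K c hb
    have h1 : b * 1 = b * (a * k) := by
      rw [mul_one, ← mul_assoc, mul_comm b a, ← hab]; exact hk
    have h2 := mul_left_cancel₀ hb0 h1
    exact IsUnit.of_mul_eq_one k h2.symm

/-- its degree is `n` -/
theorem natDegree_minpoly (hn : 1 ≤ n) (c : Matrix (Fin n) (Fin n) K) (hirr : IsIrred c) :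
    (minpoly K c).natDegree = n := by
  haveI : Nonempty (Fin n) := ⟨⟨0, hn⟩⟩
  have hint : IsIntegral K c := Algebra.IsIntegral.isIntegral c
  have hf0 : minpoly K c ≠ 0 := minpoly.ne_zero hint
  have hmonic : (minpoly K c).Monic := minpoly.monic hint
  set f := minpoly K c with hf
  let v : Fin n → K := fun _ => 1
  have hv : v ≠ 0 := fun h => one_ne_zero (congrFun h ⟨0, hn⟩)
  let T : K[X] →ₗ[K] (Fin n → K) :=
    { toFun := fun p => (aeval c p) *ᵥ v
      map_add' := fun p r => by rw [map_add, Matrix.add_mulVec]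
      map_smul' := fun a p => by rw [map_smul, Matrix.smul_mulVec]; rfl }
  have hT : ∀ p, T p = (aeval c p) *ᵥ v := fun p => rfl
  have hrange : LinearMap.range T = ⊤ := by
    rcases hirr (LinearMap.range T) (by
      rintro x ⟨p, rfl⟩
      refine ⟨X * p, ?_⟩
      rw [hT, hT, map_mul, aeval_X, Matrix.mulVec_mulVec]) with h | h
    · exfalso
      have : T 1 ∈ LinearMap.range T := ⟨1, rfl⟩
      rw [h, Submodule.mem_bot, hT, map_one, Matrix.one_mulVec] at this
      exact hv this
    · exact h
  let T1 : degreeLT K f.natDegree →ₗ[K] (Fin n → K) := T.comp (Submodule.subtype _)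
  have hbij : Function.Bijective T1 := by
    constructor
    · rw [← LinearMap.ker_eq_bot, LinearMap.ker_eq_bot']
      rintro ⟨p, hp⟩ h
      have h' : (aeval c p) *ᵥ v = 0 := h
      have h2 : aeval c p = 0 := by
        rcases aeval_dich c hirr p with h3 | h3
        · exact h3
        · exact absurd (h3 _ h') hv
      apply Subtype.ext
      change p = 0
      by_contra hp0
      have h4 := minpoly.degree_le_of_ne_zero K c hp0 h2
      rw [mem_degreeLT] at hp
      rw [← hf, degree_eq_natDegree hf0] at h4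
      exact absurd hp (not_lt.2 h4)
    · intro y
      have : y ∈ LinearMap.range T := by rw [hrange]; trivial
      obtain ⟨p, hp⟩ := this
      refine ⟨⟨p %ₘ f, ?_⟩, ?_⟩
      · rw [mem_degreeLT, ← degree_eq_natDegree hf0]
        exact degree_modByMonic_lt p hmonic
      · change (aeval c (p %ₘ f)) *ᵥ v = y
        rw [← hp, hT]
        congr 1
        conv_rhs => rw [← modByMonic_add_div p f]
        rw [map_add, map_mul, hf, minpoly.aeval, zero_mul, add_zero]
  have h1 := (LinearEquiv.ofBijective T1 hbij).finrank_eq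
  have h2 := (degreeLTEquiv K f.natDegree).finrank_eq
  rw [h2, finrank_fin_fun, finrank_fin_fun] at h1
  exact h1

end O

open O Polynomial in
/-- Task O: irreducible elements exist in odd dimension only. -/
theorem odd_of_irred (C : Cj K) {n : ℕ} (hn : 1 ≤ n) (c : Matrix (Fin n) (Fin n) K)
    (hc : InGU C.q c) (hirr : IsIrred c) : Odd n := by
  haveI : Nonempty (Fin n) := ⟨⟨0, hn⟩⟩
  have hint : IsIntegral K c := Algebra.IsIntegral.isIntegral c
  have hf0 : minpoly K c ≠ 0 := minpoly.ne_zero hint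
  haveI hfact : Fact (Irreducible (minpoly K c)) := ⟨irreducible_minpoly hn c hirr⟩
  have hdeg := natDegree_minpoly hn c hirr
  have hfin : FiniteDimensional K (AdjoinRoot (minpoly K c)) :=
    (AdjoinRoot.powerBasis hf0).finite
  have hrank : finrank K (AdjoinRoot (minpoly K c)) = n := by
    rw [(AdjoinRoot.powerBasis hf0).finrank, AdjoinRoot.powerBasis_dim, hdeg]
  haveI hLfin : Finite (AdjoinRoot (minpoly K c)) := Module.finite_of_finite K
  -- the `q`-power map is a ring homomorphism
  have hq : ∃ p j : ℕ, p.Prime ∧ CharP K p ∧ C.q = p ^ j := by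
    obtain ⟨p, hch, k, hp, hk⟩ := FiniteField.card' K
    have h1 : C.q ∣ p ^ (k : ℕ) := by
      rw [← hk, C.card_eq]; exact dvd_pow_self _ two_ne_zero
    obtain ⟨j, -, hj⟩ := (Nat.dvd_prime_pow hp).1 h1
    exact ⟨p, j, hp, hch, hj⟩
  obtain ⟨p, j, hp, hchar, hqj⟩ := hq
  haveI : Fact p.Prime := ⟨hp⟩
  haveI : CharP (AdjoinRoot (minpoly K c)) p := charP_of_injective_algebraMap' K p
  haveI : ExpChar (AdjoinRoot (minpoly K c)) p := .prime hp
  let F : AdjoinRoot (minpoly K c) →+* AdjoinRoot (minpoly K c) :=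
    iterateFrobenius (AdjoinRoot (minpoly K c)) p j
  have hF : ∀ x, F x = x ^ C.q := by
    intro x; rw [hqj]; exact iterateFrobenius_def p j x
  -- the embedding in the matrix algebra
  let Φ : AdjoinRoot (minpoly K c) →ₐ[K] Matrix (Fin n) (Fin n) K :=
    Ideal.Quotient.liftₐ (Ideal.span {minpoly K c}) (aeval c) (by
      intro a ha
      obtain ⟨k, rfl⟩ := Ideal.mem_span_singleton'.1 ha
      rw [map_mul, minpoly.aeval, mul_zero])
  have hΦr : Φ (AdjoinRoot.root _) = c := by
    change aeval c X = c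
    exact aeval_X c
  have hΦinj : Function.Injective Φ := Φ.toRingHom.injective
  have hr0 : AdjoinRoot.root (minpoly K c) ≠ 0 := by
    intro h0
    have h1 : c = 0 := by rw [← hΦr, h0, map_zero]
    rw [h1] at hc
    unfold InGU at hc
    rw [zero_mul] at hc
    exact zero_ne_one hc
  set r := AdjoinRoot.root (minpoly K c) with hr
  have hcs : cᵀ.map C.σ = cᵀ.map (fun x => x ^ C.q) := by
    ext i k; simp [C.σ_apply]
  have hΦri : Φ r⁻¹ = cᵀ.map C.σ := by
    have h1 : Φ r⁻¹ * c = 1 := by
      have h3 : Φ r⁻¹ * Φ r = 1 := by rw [← map_mul, inv_mul_cancel₀ hr0, map_one]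
      rwa [hΦr] at h3
    have h2 : c * cᵀ.map C.σ = 1 := by rw [hcs]; exact hc
    calc Φ r⁻¹ = Φ r⁻¹ * (c * cᵀ.map C.σ) := by rw [h2, mul_one]
      _ = cᵀ.map C.σ := by rw [← mul_assoc, h1, one_mul]
  have hev : aeval r⁻¹ ((minpoly K c).map C.σ) = 0 := by
    apply hΦinj
    rw [map_zero, ← aeval_algHom_apply, hΦri, O.aeval_conj, minpoly.aeval]
    ext i k
    simp
  have hev2 : (minpoly K c).eval₂ (Algebra.ofId K (AdjoinRoot (minpoly K c))).toRingHom
      (r⁻¹ ^ C.q) = 0 := by
    have h1 := congrArg F hev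
    rw [map_zero, aeval_def, hom_eval₂, hF, eval₂_map] at h1
    have h2 : (F.comp (algebraMap K (AdjoinRoot (minpoly K c)))).comp C.σ =
        (Algebra.ofId K (AdjoinRoot (minpoly K c))).toRingHom := by
      ext a
      simp only [RingHom.comp_apply]
      rw [hF, ← map_pow, ← C.σ_apply, C.σ_σ]
      rfl
    rw [h2] at h1
    exact h1
  let ψ : AdjoinRoot (minpoly K c) →ₐ[K] AdjoinRoot (minpoly K c) :=
    AdjoinRoot.liftAlgHom (minpoly K c) (Algebra.ofId K _) (r⁻¹ ^ C.q) hev2
  have hψr : ψ r = r⁻¹ ^ C.q := by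
    exact AdjoinRoot.lift_root hev2
  have hψψ : ∀ x, ψ (ψ x) = x ^ Fintype.card K := by
    have h1 : ψ.comp ψ = FiniteField.frobeniusAlgHom K (AdjoinRoot (minpoly K c)) := by
      apply AdjoinRoot.algHom_ext
      rw [AlgHom.comp_apply, ← hr, hψr, map_pow, map_inv₀, hψr, ← inv_pow, inv_inv, ← pow_mul,
        FiniteField.frobeniusAlgHom_apply, C.card_eq, sq]
    intro x
    have := DFunLike.congr_fun h1 x
    rw [AlgHom.comp_apply] at this
    rw [this, FiniteField.frobeniusAlgHom_apply]
  let ψ' : Gal(AdjoinRoot (minpoly K c)/K) :=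
    AlgEquiv.ofBijective ψ (Algebra.IsAlgebraic.algHom_bijective ψ)
  have hψ' : ψ' * ψ' = FiniteField.frobeniusAlgEquivOfAlgebraic K (AdjoinRoot (minpoly K c)) := by
    ext x
    change ψ (ψ x) = x ^ Fintype.card K
    exact hψψ x
  obtain ⟨⟨i, hi⟩, hi2⟩ := (FiniteField.bijective_frobeniusAlgEquivOfAlgebraic_pow K
    (AdjoinRoot (minpoly K c))).2 ψ'
  simp only at hi2
  rw [← hi2, ← pow_add] at hψ'
  have h3 : FiniteField.frobeniusAlgEquivOfAlgebraic K (AdjoinRoot (minpoly K c)) ^ (i + i) =
      FiniteField.frobeniusAlgEquivOfAlgebraic K (AdjoinRoot (minpoly K c)) ^ 1 := by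
    rw [hψ', pow_one]
  rw [pow_eq_pow_iff_modEq, FiniteField.orderOf_frobeniusAlgEquivOfAlgebraic, hrank] at h3
  by_contra hodd
  rw [Nat.not_odd_iff_even] at hodd
  have h4 : i + i ≡ 1 [MOD 2] := h3.of_dvd hodd.two_dvd
  unfold Nat.ModEq at h4
  omega

end Pool.Agent.MP_359fef_co
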