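import Pool.Agent.Lib.MP_359fef_co.U0

/-!
# Task L1: the relations `Λ_{w,μ}` are Lagrangian, and `κ` in terms of them.
-/

namespace Pool.Agent.MP_359fef_co

open Finset Matrix Module

universe u

variable {K : Type u} [Field K] [Fintype K] {C : Cj K}

namespace L1

variable {W : Type u} [AddCommGroup W] [Module K W] (H : Herm C W)

theorem eq_of_f {x y : W} (h : ∀ z, H.f x z = H.f y z) : x = y := by
  have : x - y = 0 := H.nondeg _ (fun z => by rw [H.sub_left, h z, sub_self])
  exact sub_eq_zero.1 this

/-- the double orthogonal of a line -/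
theorem mem_line {w u : W} (h : ∀ y, H.f w y = 0 → H.f u y = 0) : ∃ a : K, u = a • w := by
  by_cases hw : w = 0
  · refine ⟨0, ?_⟩
    rw [hw, smul_zero]
    refine H.nondeg u (fun y => h y ?_)
    rw [hw, H.zero_left]
  · have : ∃ y, H.f w y ≠ 0 := by
      by_contra hcon
      push Not at hcon
      exact hw (H.nondeg w hcon)
    obtain ⟨y1, hy1⟩ := this
    set y0 := (H.f w y1)⁻¹ • y1 with hy0
    have hy01 : H.f w y0 = 1 := by
      rw [hy0, H.smul_right, inv_mul_cancel₀ hy1]
    refine ⟨C.σ (H.f u y0), eq_of_f H (fun y => ?_)⟩
    have h1 : H.f w (y - H.f w y • y0) = 0 := by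
      rw [H.sub_right, H.smul_right, hy01, mul_one, sub_self]
    have h2 := h _ h1
    rw [H.sub_right, H.smul_right, sub_eq_zero] at h2
    rw [h2, H.smul_left, C.σ_σ]
    ring

end L1

open L1

/-- Task L1: the relations `Λ_{w,μ}` are Lagrangian, and `κ` in terms of them. -/
theorem Lam_isLag [Finite K] {W : Type u} [AddCommGroup W] [Module K W] [Finite W] (H : Herm C W)
    (h : W ≃ₗ[K] W) (hh : ∀ x y, H.f (h x) (h y) = H.f x y) (w : W) (μ : K)
    (hμ : μ + C.σ μ = - H.f w w) : IsLag H (Lam H h w μ) := by
  have hww : H.f w w = - (μ + C.σ μ) := by rw [hμ, neg_neg]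
  rintro ⟨x, x'⟩
  constructor
  · rintro ⟨α, h1, h2⟩ ⟨y, y'⟩ ⟨β, h3, h4⟩
    simp only at h1 h2 h3 h4 ⊢
    have h5 : H.f x w = C.σ (μ * α) := by rw [H.symm w x, h2]
    rw [h1, h3, hh, H.add_left, H.add_right, H.add_right, H.smul_left, H.smul_right,
      H.smul_left, H.smul_right, h5, h4, hww, map_mul]
    ring
  · intro hr
    obtain ⟨z, rfl⟩ := h.surjective x'
    have key : ∀ y β, H.f w y = μ * β → H.f x y = H.f z y + β * H.f z w := by
      intro y β hy
      have := hr (y, h (y + β • w)) ⟨β, rfl, hy⟩
      simp only at this
      rw [this, hh, H.add_right, H.smul_right]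
    by_cases h0 : μ = 0
    · subst h0
      have hww' : H.f w w = 0 := by rw [hww]; simp
      have hzw : H.f z w = 0 := by
        have := key 0 1 (by rw [H.zero_right]; ring)
        rw [H.zero_right, H.zero_right] at this
        simpa using this.symm
      have hline : ∃ a : K, z - x = a • w := by
        refine mem_line H (fun y hy => ?_)
        have := key y 0 (by rw [hy]; ring)
        rw [H.sub_left, this]; ring
      obtain ⟨a, ha⟩ := hline
      refine ⟨a, ?_, ?_⟩
      · simp only
        rw [← ha]; congr 1; abel
      · simp only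
        have hx : x = z - a • w := by rw [← ha]; abel
        have hwz : H.f w z = 0 := by rw [H.symm z w, hzw, map_zero]
        rw [hx, H.sub_right, H.smul_right, hwz, hww']; ring
    · have hσ0 : C.σ μ ≠ 0 := by
        intro hc; exact h0 (by rw [← C.σ_σ μ, hc, map_zero])
      have hxz : x - z = ((C.σ μ)⁻¹ * H.f w z) • w := by
        refine eq_of_f H (fun y => ?_)
        have := key y (μ⁻¹ * H.f w y) (by rw [← mul_assoc, mul_inv_cancel₀ h0, one_mul])
        rw [H.sub_left, this, H.smul_left, map_mul, map_inv₀, C.σ_σ, ← H.symm w z]
        ring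
      refine ⟨-((C.σ μ)⁻¹ * H.f w z), ?_, ?_⟩
      · simp only
        rw [neg_smul, ← hxz]; congr 1; abel
      · simp only
        have hx : x = z + ((C.σ μ)⁻¹ * H.f w z) • w := by rw [← hxz]; abel
        rw [hx, H.add_right, H.smul_right, hww]
        field_simp
        ring

theorem graph_isLag {W : Type u} [AddCommGroup W] [Module K W] [Finite W] (H : Herm C W)
    (h : W ≃ₗ[K] W) (hh : ∀ x y, H.f (h x) (h y) = H.f x y) :
    IsLag H h.toLinearMap.graph := by
  rintro ⟨x, x'⟩
  constructor
  · intro h1 r h2
    rw [LinearMap.mem_graph_iff] at h1 h2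
    simp only [LinearEquiv.coe_coe] at h1 h2
    simp only [h1, h2, hh]
  · intro hr
    obtain ⟨z, rfl⟩ := h.surjective x'
    rw [LinearMap.mem_graph_iff]
    simp only [LinearEquiv.coe_coe, EmbeddingLike.apply_eq_iff_eq]
    refine (eq_of_f H (fun y => ?_)).symm
    have := hr (y, h y) (by rw [LinearMap.mem_graph_iff]; rfl)
    simp only [hh] at this
    exact this

open Classical in
theorem kap_eq {W : Type u} [AddCommGroup W] [Module K W] [Finite W] (H : Herm C W)
    (h : W ≃ₗ[K] W) (hh : ∀ x y, H.f (h x) (h y) = H.f x y) (w : W) (μ : K)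
    (hμ : μ + C.σ μ = - H.f w w) (n : ℕ) (g : Matrix (Fin n) (Fin n) K) (hg : InGU C.q g) :
    kap H h g w μ =
      KR C (Lam H h w μ) g * (if w = 0 ∧ μ = 0 then C.X ^ n else 1) := by
  have hww : H.f w w = - (μ + C.σ μ) := by rw [hμ, neg_neg]
  haveI : Module.Finite K W := Module.Finite.of_finite
  -- the map
  let T0 : ((Fin n → W) × (Fin n → K)) →ₗ[K] (Fin n → W) :=
    (LinearMap.funLeft K W id).comp
      ((LinearMap.pi (fun i => h.toLinearMap.comp (LinearMap.proj i))).comp
        (LinearMap.fst K (Fin n → W) (Fin n → K)))
  have hT0 : ∀ p i, T0 p i = h (p.1 i) := fun p i => rfl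
  have hmem : ∀ p ∈ Ssp H h g w μ, T0 p ∈ solL (Lam H h w μ) g := by
    rintro ⟨η, v⟩ ⟨h1, h2⟩ i
    simp only [hT0]
    have e1 : ∑ j, g i j • h (η j) = η i - v i • w := by
      have := h1 i
      simp only at this
      rw [← this]; abel
    refine ⟨v i, ?_, ?_⟩
    · simp only
      rw [e1]; congr 1; abel
    · simp only
      rw [e1, H.sub_right, H.smul_right]
      have := h2 i
      simp only at this
      rw [this, hww]; ring
  let T : Ssp H h g w μ →ₗ[K] solL (Lam H h w μ) g := T0.restrict hmem
  have hTsurj : Function.Surjective T := by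
    rintro ⟨b, hb⟩
    have hb2 := hb
    choose α h1 h2 using hb2
    simp only at h1 h2
    refine ⟨⟨(fun i => h.symm (b i), α), ?_, ?_⟩, ?_⟩
    · intro i
      simp only [LinearEquiv.apply_symm_apply]
      have := congrArg h.symm (h1 i)
      rw [LinearEquiv.symm_apply_apply] at this
      rw [this]; abel
    · intro i
      simp only
      have := congrArg h.symm (h1 i)
      rw [LinearEquiv.symm_apply_apply] at this
      rw [this, H.add_right, H.smul_right, h2 i, hww]; ring
    · apply Subtype.ext
      funext i
      change h (h.symm (b i)) = b i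
      rw [LinearEquiv.apply_symm_apply]
  have hrank := LinearMap.finrank_range_add_finrank_ker T
  rw [LinearMap.range_eq_top.2 hTsurj, finrank_top] at hrank
  have hker : finrank K (LinearMap.ker T) = if w = 0 ∧ μ = 0 then n else 0 := by
    split_ifs with hc
    · obtain ⟨rfl, rfl⟩ := hc
      -- ker T ≃ K^n
      let E : (Fin n → K) →ₗ[K] LinearMap.ker T :=
        { toFun := fun v => ⟨⟨(0, v), by
            refine ⟨fun i => by simp, fun i => ?_⟩
            simp only [map_zero, neg_zero, zero_mul]
            exact H.zero_left _⟩, by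
            rw [LinearMap.mem_ker]
            apply Subtype.ext
            funext i
            change h 0 = 0
            exact map_zero h⟩
          map_add' := by
            intro a b
            apply Subtype.ext; apply Subtype.ext
            simp
          map_smul' := by
            intro r a
            apply Subtype.ext; apply Subtype.ext
            simp }
      have hE : Function.Bijective E := by
        constructor
        · intro a b hab
          have := congrArg (fun z => z.1.1.2) hab
          exact this
        · rintro ⟨⟨⟨η, v⟩, h1, h2⟩, h3⟩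
          refine ⟨v, ?_⟩
          apply Subtype.ext; apply Subtype.ext
          rw [LinearMap.mem_ker] at h3
          have h4 : ∀ i, h (η i) = 0 := fun i => congrFun (congrArg Subtype.val h3) i
          have h5 : η = 0 := by
            funext i
            have := h4 i
            rwa [LinearEquiv.map_eq_zero_iff] at this
          change ((0 : Fin n → W), v) = (η, v)
          rw [h5]
      have := (LinearEquiv.ofBijective E hE).finrank_eq
      rw [← this, finrank_fin_fun]
    · have hbot : LinearMap.ker T = ⊥ := by
        rw [LinearMap.ker_eq_bot']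
        rintro ⟨⟨η, v⟩, h1, h2⟩ h3
        have h4 : ∀ i, h (η i) = 0 := fun i => congrFun (congrArg Subtype.val h3) i
        have h5 : ∀ i, η i = 0 := by
          intro i
          have := h4 i
          rwa [LinearEquiv.map_eq_zero_iff] at this
        apply Subtype.ext
        change (η, v) = (0, 0)
        refine Prod.ext (funext h5) (funext fun i => ?_)
        simp only at h1 h2
        change v i = 0
        have a1 := h1 i
        have a2 := h2 i
        simp only [h5, map_zero, smul_zero, Finset.sum_const_zero, sub_zero] at a1
        rw [h5, H.zero_right] at a2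
        by_contra hv
        apply hc
        constructor
        · rcases smul_eq_zero.1 a1.symm with h6 | h6
          · exact absurd h6 hv
          · exact h6
        · have : C.σ μ = 0 := by
            rcases mul_eq_zero.1 a2.symm with h6 | h6
            · simpa using h6
            · exact absurd h6 hv
          rw [← C.σ_σ μ, this, map_zero]
      rw [hbot, finrank_bot]
  rw [hker] at hrank
  unfold kap KR
  rw [← hrank, pow_add]
  congr 1
  split_ifs <;> simp

end Pool.Agent.MP_359fef_co
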